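import Pool.Agent.EGF.StmtsS

/-!
# Squad EGF, row LGT: many colours have large stars
-/

set_option autoImplicit false

open Finset

namespace Pool.Agent.EGF.H2

theorem lgt (h1 : GinStmt) (h2 : LocStmt) : LgtStmt := by
  classical
  intro V _ k c U s L T hsym hN3 hF hL hs hT hU
  obtain ⟨u, hu⟩ := hU
  have hk : 1 ≤ k := by
    have := (c u u).2
    omega
  have hkR : (1 : ℝ) ≤ (k : ℝ) := by exact_mod_cast hk
  have hkT : (1 : ℝ) ≤ (k : ℝ) * T := by nlinarith
  have hbig : ∀ g, g ∉ big c U T → ∀ x ∈ U, ((nb c U g x).card : ℝ) < T := by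
    intro g hg x hx
    by_contra hc
    apply hg
    unfold big
    rw [mem_filter]
    exact ⟨mem_univ _, x, hx, not_lt.1 hc⟩
  have hdeg : ∀ x ∈ U, ∀ S ⊆ U, (∀ y ∈ S, y ≠ x ∧ c x y ∉ big c U T) →
      S.card ≤ ⌊(k : ℝ) * T⌋₊ := by
    intro x hx S hSU hS
    apply Nat.le_floor
    have hsub : S ⊆ (univ.filter fun g => g ∉ big c U T).biUnion fun g => nb c U g x := by
      intro y hy
      rw [mem_biUnion]
      refine ⟨c x y, ?_, ?_⟩
      · rw [mem_filter]
        exact ⟨mem_univ _, (hS y hy).2⟩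
      · unfold nb
        rw [mem_filter]
        exact ⟨hSU hy, (hS y hy).1, rfl⟩
    have hle : (S.card : ℝ) ≤ ∑ g ∈ univ.filter (fun g => g ∉ big c U T),
        ((nb c U g x).card : ℝ) := by
      have := (card_le_card hsub).trans card_biUnion_le
      exact_mod_cast this
    refine hle.trans ?_
    have hle2 : ∑ g ∈ univ.filter (fun g => g ∉ big c U T), ((nb c U g x).card : ℝ)
        ≤ ∑ g ∈ univ.filter (fun g => g ∉ big c U T), T :=
      sum_le_sum fun g hg => (hbig g (mem_filter.1 hg).2 x hx).le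
    refine hle2.trans ?_
    rw [sum_const, nsmul_eq_mul]
    refine mul_le_mul_of_nonneg_right ?_ (by linarith)
    have h3 : (univ.filter fun g => g ∉ big c U T).card ≤ k := by
      have := card_le_univ (univ.filter fun g => g ∉ big c U T)
      rwa [Fintype.card_fin] at this
    exact_mod_cast h3
  obtain ⟨I, hIU, hI, hcard⟩ := h1 V U (fun x y => c x y ∉ big c U T) ⌊(k : ℝ) * T⌋₊
    (fun x y h => by rwa [hsym y x]) hdeg
  have hUpos : 0 < U.card := card_pos.2 ⟨u, hu⟩
  have hIpos : 0 < I.card := by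
    rcases Nat.eq_zero_or_pos I.card with h | h
    · rw [h, mul_zero] at hcard
      omega
    · exact h
  have hIR : (1 : ℝ) ≤ (I.card : ℝ) := by exact_mod_cast hIpos
  have hfl : ((⌊(k : ℝ) * T⌋₊ : ℕ) : ℝ) ≤ (k : ℝ) * T := Nat.floor_le (by linarith)
  have hc1 : (U.card : ℝ) ≤ 2 * (k : ℝ) * T * (I.card : ℝ) := by
    have h3 : (U.card : ℝ) ≤ ((⌊(k : ℝ) * T⌋₊ : ℕ) + 1 : ℝ) * (I.card : ℝ) := by
      exact_mod_cast hcard
    refine h3.trans ?_
    refine mul_le_mul_of_nonneg_right ?_ (by linarith)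
    linarith
  have hlog : Real.log U.card ≤ Real.log (2 * k) + Real.log T + Real.log I.card := by
    have h3 := Real.log_le_log (by exact_mod_cast hUpos) hc1
    rw [Real.log_mul (by positivity) (by positivity), Real.log_mul (by positivity) (by linarith)]
      at h3
    exact h3
  have hpal : pal c I ⊆ big c U T := by
    intro g hg
    unfold pal at hg
    rw [mem_image] at hg
    obtain ⟨p, hp, rfl⟩ := hg
    rw [mem_filter, mem_product] at hp
    exact not_not.1 (hI p.1 hp.1.1 p.2 hp.1.2 hp.2)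
  have hsm : smax c I ≤ (big c U T).card := by
    unfold smax
    refine Finset.sup_le fun x hx => card_le_card fun g hg => hpal ?_
    unfold star at hg
    rw [mem_image] at hg
    obtain ⟨z, hz, rfl⟩ := hg
    rw [mem_filter] at hz
    unfold pal
    rw [mem_image]
    exact ⟨(x, z), mem_filter.2 ⟨mem_product.2 ⟨hx, hz.1⟩, fun h => hz.2 h.symm⟩, rfl⟩
  have hloc := h2 V k c I s L hsym (fun x hx y hy z hz => hN3 x (hIU hx) y (hIU hy) z (hIU hz))
    (fun S hS => hF S (hS.trans hIU)) hL hs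
  have hs1 : (1 : ℝ) ≤ (s : ℝ) := by linarith
  have hls : 0 ≤ Real.log ((s : ℝ) ^ 2) := Real.log_nonneg (by nlinarith)
  have hfin : (smax c I : ℝ) * Real.log ((s : ℝ) ^ 2)
      ≤ ((big c U T).card : ℝ) * Real.log ((s : ℝ) ^ 2) :=
    mul_le_mul_of_nonneg_right (by exact_mod_cast hsm) hls
  linarith

end Pool.Agent.EGF.H2
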